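import Pool.Agent.Helper28.E.RSix5

/-!
Symmetries of a family concentrated at a place of type III of rank six: the theorem
(factors of five kinds, for MP_bf54cf_ag).
-/

open Module NumberField LieAlgebra LieModule

namespace Pool.Agent.Helper28.E

open Pool.Agent.Helper7 hiding Vs mem_Vs elL exists_elL elL_lie elL_bracket Vs_single Vs_proj
  Vs_ext toVs toVs_apply Vs_irr LL mem_LL phi perfect_lift
open Pool.Agent.Helper8 Pool.Agent.Helper24 Pool.Agent.Helper36
open Pool.Agent.Helper8.D (Sym QF ent symI)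
open Pool.Agent.Helper8.E
open Pool.Agent.GPC (Emb)

attribute [local instance 100] LieRing.ofAssociativeRing

set_option linter.unusedSectionVars false

section family

variable {I : Type} [Fintype I] [DecidableEq I] (n : I → ℕ)
  {κ : I → Type} [∀ i, Fintype (κ i)] [∀ i, DecidableEq (κ i)] {ϖ : ℂ}
  (P : ∀ i, PData (κ i) ϖ)
  {K : I → Type} [∀ i, Field (K i)] [∀ i, NumberField (K i)]
  {k : ℕ} (α : MultilinearMap ℂ (fun _ : Fin (2 * k) => HW κ n) ℂ)
  (F : ∀ i, Fac5 (P i) (K i))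
  (hϖ : ϖ ≠ 0)
  (hB : ∀ v : Fin (2 * k) → HW κ n, (∀ r, IsRatP n P (v r)) → ∃ q : ℚ, α v = ϖ ^ k * q)
  (hA : ∀ v : Fin (2 * k) → HW κ n, (∀ r i m j, IsAlgebraic ℚ (v r i m j)) →
      IsAlgebraic ℚ (α v))

include hϖ hB hA in
/-- Every symmetry of a factor of type III and rank six at a place is the normalised action of a
symmetry of the family whose normalised action vanishes at all the places except the given one
and its conjugate. -/
theorem exists_R
    (hRR : ∀ i j, (F i).isR → (F j).isR → i ≠ j → ∀ g : (κ i → ℂ) →ₗ[ℂ] (κ j → ℂ),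
      IsDRB (P i) (P j) g → g = 0)
    (s : Emb K) (hs : (F s.1).isR) (Z : Module.End ℂ (κ s.1 → ℂ))
    (hZ : Pool.Agent.Helper8.D.Sym (P s.1) Z 0) :
    ∃ X, IsInv n P α X ∧ (∀ v, nrA P F s X v = Z (proj (FU P F s.1).ρ s.2 v)) ∧
      ∀ t, t ≠ s → t ≠ conjT s → ∀ v, nrA P F t X v = 0 := by
  classical
  have hK := isKilling n P α F hϖ hB hA
  have hI := Vs_irr n P (FU P F) α hϖ hB hA s (F s.1).rk_pos
  obtain ⟨F', hF'⟩ := exists_R' P F hs
  have hb := orth_bR n P α F s F' hF'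
  have hd : finrank ℂ (Vs n P (FU P F) α s) = 6 := by
    rw [finrank_Vs, hF']; rfl
  have hρ : (FU P F s.1).ρ = F'.ρ := by
    show (F s.1).toUF.ρ = F'.ρ
    rw [hF']; rfl
  -- the endomorphism of the eigenspace
  let T : Module.End ℂ (Vs n P (FU P F) α s) :=
    toVs n P (FU P F) α s ∘ₗ Z ∘ₗ ofVs n P (FU P F) α s
  have hZp : ∀ v, proj (FU P F s.1).ρ s.2 (Z (proj (FU P F s.1).ρ s.2 v)) =
      Z (proj (FU P F s.1).ρ s.2 v) := by
    intro v
    rw [← (hZ.commF (FU P F s.1)).proj, ← Module.End.mul_apply (proj _ _), proj_mul_proj,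
      if_pos rfl]
  have hTo : ∀ x, ofVs n P (FU P F) α s (T x) = Z (ofVs n P (FU P F) α s x) := by
    intro x
    have e1 : proj (FU P F s.1).ρ s.2 (ofVs n P (FU P F) α s x) = ofVs n P (FU P F) α s x :=
      Vs_proj n P (FU P F) α s x
    show ofVs n P (FU P F) α s (toVs n P (FU P F) α s (Z (ofVs n P (FU P F) α s x))) = _
    rw [ofVs_toVs, ← e1, hZp]
  have hT : ∀ x y, bR n P α F s F' (T x) y = - bR n P α F s F' x (T y) := by
    intro x y
    have h1 := hZ.pol (F'.j (ofVs n P (FU P F) α s x)) (ofVs n P (FU P F) α s y)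
    rw [hZ.comm F'.j F'.hj, zero_mul] at h1
    rw [bR_apply, bR_apply, hTo, hTo]
    exact eq_neg_of_add_eq_zero_left h1
  obtain ⟨g, hg⟩ := orth_six hb hd T hT
  obtain ⟨a, ha, hga⟩ := inf_ideals hb hd
    (Finset.univ.filter (fun t : Emb K => t ≠ s ∧ t ≠ conjT s))
    (fun t => LieModule.ker ℂ (LL n P (FU P F) α) (Vs n P (FU P F) α t)) (by
      intro t ht hcon
      obtain ⟨-, h1, h2⟩ := Finset.mem_filter.mp ht
      have hk : ∀ a : LL n P (FU P F) α, (∀ x : Vs n P (FU P F) α t, ⁅a, x⁆ = 0) →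
          ∀ x : Vs n P (FU P F) α s, ⁅a, x⁆ = 0 := fun a ha x =>
        hcon a ((LieModule.mem_ker (R := ℂ) (M := Vs n P (FU P F) α t) (x := a)).mpr ha) x
      rcases (F t.1).kinds with h3 | h3 | h3 | h3 | h3
      · exact case_P n P α F hϖ hB hA s t hs ((F t.1).isP_of_S h3) hk
      · exact case_P n P α F hϖ hB hA s t hs ((F t.1).isP_of_W h3) hk
      · exact case_P n P α F hϖ hB hA s t hs ((F t.1).isP_of_Q h3) hk
      · exact case_R n P α F hϖ hB hA s t hs h3 hRR h1 h2 hk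
      · obtain ⟨a, x, hax⟩ := exists_act_ne (L := LL n P (FU P F) α) hb hd
        exact hax (hk a (fun y => act_T n P α F t h3 a y) x)) g
  obtain ⟨X, hX, rfl⟩ := exists_elL n P (FU P F) α a
  refine ⟨X, hX, fun v => ?_, fun t h1 h2 v => ?_⟩
  · rw [← act_toVs n P α F s X hX v, ← hga, hg, hTo, ofVs_toVs]
  · have h3 := ha t (Finset.mem_filter.mpr ⟨Finset.mem_univ _, h1, h2⟩)
    rw [← act_toVs n P α F t X hX v,
      (LieModule.mem_ker (R := ℂ) (M := Vs n P (FU P F) α t)
        (x := elL n P (FU P F) α X hX)).mp h3, map_zero]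

end family

end Pool.Agent.Helper28.E
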